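import Pool.Agent.H48.RG.Targets

/-! Row D_SMW of `reg_modules`: product of a function with a weak gradient and a smooth function. -/

set_option autoImplicit false

namespace Pool.Agent.H67.RG

open MeasureTheory Metric Set Filter Topology
open Pool.Agent.H48.RG Pool.Agent.H87.SN
open scoped ContDiff RealInnerProductSpace ENNReal

theorem int_mul {n : ℕ} {U : Set (E n)} {g h : E n → ℝ} (hg : Continuous g)
    (hgc : HasCompactSupport g) (hgU : tsupport g ⊆ U) (hh : IntegrableOn h U) :
    Integrable (fun x => g x * h x) := by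
  obtain ⟨C, hC⟩ := hg.bounded_above_of_compact_support hgc
  have h1 : IntegrableOn (fun x => g x * h x) U :=
    hh.bdd_mul hg.aestronglyMeasurable.restrict (Eventually.of_forall hC)
  refine (integrableOn_iff_integrable_of_support_subset ?_).1 h1
  intro x hx
  by_contra hxU
  apply hx
  have : g x = 0 := image_eq_zero_of_notMem_tsupport fun h => hxU (hgU h)
  simp [this]

theorem continuous_gradient {n : ℕ} {φ : E n → ℝ} (hφ : ContDiff ℝ ∞ φ) :
    Continuous (fun x => gradient φ x) := by
  have h : Continuous (fderiv ℝ φ) := hφ.continuous_fderiv (by simp)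
  exact (InnerProductSpace.toDual ℝ (E n)).symm.continuous.comp h

theorem inner_gradient {n : ℕ} (φ : E n → ℝ) (x v : E n) :
    ⟪gradient φ x, v⟫ = fderiv ℝ φ x v := by
  rw [gradient, InnerProductSpace.toDual_symm_apply]

theorem pf_SMW : T_SMW := by
  intro n y r φ f D hφ hf
  obtain ⟨B, hB⟩ := hf.bd
  have hms := hf.ms
  obtain ⟨Bφ, hBφ⟩ : ∃ C, ∀ x ∈ closedBall y r, ‖φ x‖ ≤ C :=
    (isCompact_closedBall y r).exists_bound_of_continuousOn hφ.continuous.continuousOn
  obtain ⟨Bg, hBg⟩ : ∃ C, ∀ x ∈ closedBall y r, ‖gradient φ x‖ ≤ C :=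
    (isCompact_closedBall y r).exists_bound_of_continuousOn (continuous_gradient hφ).continuousOn
  have hae : ∀ᵐ x ∂(volume.restrict (ball y r)), x ∈ closedBall y r := by
    filter_upwards [ae_restrict_mem measurableSet_ball] with x hx
    exact ball_subset_closedBall hx
  have hfin : IsFiniteMeasure ((volume : Measure (E n)).restrict (ball y r)) :=
    ⟨by rw [Measure.restrict_apply_univ]; exact measure_ball_lt_top⟩
  have hfi : IntegrableOn f (ball y r) :=
    Integrable.of_bound hms B (by simpa only [Real.norm_eq_abs] using hB)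
  have hDi : IntegrableOn D (ball y r) := hf.d2.integrable (by norm_num)
  have hDv : ∀ v : E n, IntegrableOn (fun x => ⟪D x, v⟫) (ball y r) := fun v => hDi.inner_const v
  refine ⟨hφ.continuous.aestronglyMeasurable.mul hms, ⟨Bφ * B, ?_⟩, ?_, ?_⟩
  · filter_upwards [hae, hB] with x hx hx'
    rw [abs_mul]
    have h1 := hBφ x hx
    rw [Real.norm_eq_abs] at h1
    exact mul_le_mul h1 hx' (abs_nonneg _) ((abs_nonneg _).trans h1)
  · have h1 : MemLp (fun x => φ x • D x) 2 (volume.restrict (ball y r)) := by
      refine hf.d2.of_le_mul (c := Bφ)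
        (hφ.continuous.aestronglyMeasurable.smul hf.d2.aestronglyMeasurable) ?_
      filter_upwards [hae] with x hx
      rw [norm_smul]
      exact mul_le_mul_of_nonneg_right (hBφ x hx) (norm_nonneg _)
    have h2 : MemLp (fun x => f x • gradient φ x) 2 (volume.restrict (ball y r)) := by
      refine MemLp.of_bound (hms.smul (continuous_gradient hφ).aestronglyMeasurable) (B * Bg) ?_
      filter_upwards [hae, hB] with x hx hx'
      rw [norm_smul, Real.norm_eq_abs]
      exact mul_le_mul hx' (hBg x hx) (norm_nonneg _) ((abs_nonneg _).trans hx')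
    exact h1.add h2
  · intro ψ hψ v
    obtain ⟨hψ1, hψ2, hψ3⟩ := hψ
    have hT : Tst (ball y r) (fun x => ψ x * φ x) :=
      ⟨hψ1.mul hφ, hψ2.mul_right, (tsupport_mul_subset_left).trans hψ3⟩
    have hw := hf.wg _ hT v
    have hd : ∀ x, fderiv ℝ (fun x => ψ x * φ x) x v =
        ψ x * fderiv ℝ φ x v + φ x * fderiv ℝ ψ x v := by
      intro x
      have h1 : DifferentiableAt ℝ ψ x := (hψ1.differentiable (by simp)) x
      have h2 : DifferentiableAt ℝ φ x := (hφ.differentiable (by simp)) x
      rw [fderiv_fun_mul h1 h2]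
      simp [smul_eq_mul]
    simp only [hd] at hw
    -- continuity
    have hcψ : Continuous (fun x => fderiv ℝ ψ x v) :=
      (hψ1.continuous_fderiv (by simp)).clm_apply continuous_const
    have hcφ : Continuous (fun x => fderiv ℝ φ x v) :=
      (hφ.continuous_fderiv (by simp)).clm_apply continuous_const
    have hts : tsupport (fun x => fderiv ℝ ψ x v) ⊆ tsupport ψ := by
      refine closure_minimal (fun x hx => ?_) (isClosed_tsupport ψ)
      refine (support_fderiv_subset ℝ) (fun h => hx ?_)
      simp only [h, zero_apply]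
    have hcs : HasCompactSupport (fun x => fderiv ℝ ψ x v) :=
      hψ2.mono' (subset_closure.trans hts)
    have i1 : Integrable (fun x => (ψ x * fderiv ℝ φ x v) * f x) :=
      int_mul (hψ1.continuous.mul hcφ) hψ2.mul_right
        ((tsupport_mul_subset_left).trans hψ3) hfi
    have i2 : Integrable (fun x => (φ x * fderiv ℝ ψ x v) * f x) :=
      int_mul (hφ.continuous.mul hcψ) hcs.mul_left
        ((tsupport_mul_subset_right).trans (hts.trans hψ3)) hfi
    have i3 : Integrable (fun x => (ψ x * φ x) * ⟪D x, v⟫) :=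
      int_mul (hψ1.continuous.mul hφ.continuous) hT.2.1 hT.2.2 (hDv v)
    have e1 : ∫ x, fderiv ℝ ψ x v * (φ x * f x) = ∫ x, (φ x * fderiv ℝ ψ x v) * f x :=
      integral_congr_ae (Eventually.of_forall fun x => by ring)
    have e2 : ∫ x, ψ x * ⟪dm φ f D x, v⟫ =
        ∫ x, ((ψ x * φ x) * ⟪D x, v⟫ + (ψ x * fderiv ℝ φ x v) * f x) := by
      refine integral_congr_ae (Eventually.of_forall fun x => ?_)
      simp only [dm, inner_add_left, inner_smul_left, inner_gradient, RCLike.conj_to_real]
      ring
    have e3 : ∫ x, (ψ x * fderiv ℝ φ x v + φ x * fderiv ℝ ψ x v) * f x =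
        (∫ x, (ψ x * fderiv ℝ φ x v) * f x) + ∫ x, (φ x * fderiv ℝ ψ x v) * f x := by
      rw [← integral_add i1 i2]
      exact integral_congr_ae (Eventually.of_forall fun x => by ring)
    rw [e1, e2, integral_add i3 i1]
    rw [e3] at hw
    linarith

end Pool.Agent.H67.RG
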