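import Pool.Agent.H90.RG.Targets

/-! Row F_CNT of `reg_modules`: slices of test functions. -/

set_option autoImplicit false

namespace Pool.Agent.H67.RG.FCNT

open MeasureTheory Metric Set Filter Topology
open Pool.Agent.H87.SN Pool.Agent.H90.RG
open scoped ContDiff RealInnerProductSpace ENNReal

/-- the inclusion `y ↦ (0, y)` -/
noncomputable def c0 (n : ℕ) : E n →L[ℝ] E (n + 1) := LinearMap.toContinuousLinearMap
  { toFun := fun y => cn 0 y
    map_add' := by
      intro x y
      ext i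
      refine Fin.cases ?_ (fun i => ?_) i
      · simp [cn]
      · simp [cn]
    map_smul' := by
      intro c x
      ext i
      refine Fin.cases ?_ (fun i => ?_) i
      · simp [cn]
      · simp [cn] }

theorem c0_apply {n : ℕ} (y : E n) : c0 n y = cn 0 y := rfl

section

variable {n : ℕ} (h : T_CNA)

include h

theorem cn_eq (t : ℝ) : (fun y : E n => cn t y) = fun y => t • bv 0 + c0 n y := by
  funext y
  rw [(h n).2.2.1, c0_apply]

theorem cn_eq' (y : E n) : (fun t : ℝ => cn t y) = fun t => t • (bv 0 : E (n + 1)) + cn 0 y := by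
  funext t
  rw [(h n).2.2.1]

theorem hasFDerivAt_cn (t : ℝ) (y : E n) : HasFDerivAt (fun y : E n => cn t y) (c0 n) y := by
  rw [cn_eq h t]
  exact (c0 n).hasFDerivAt.const_add _

theorem contDiff_cn (t : ℝ) : ContDiff ℝ ∞ (fun y : E n => cn t y) := by
  rw [cn_eq h t]
  exact contDiff_const.add (c0 n).contDiff

theorem hasDerivAt_cn (t : ℝ) (y : E n) :
    HasDerivAt (fun t : ℝ => cn t y) (bv 0 : E (n + 1)) t := by
  rw [cn_eq' h y]
  have h1 := ((hasDerivAt_id t).smul_const (bv 0 : E (n + 1))).add_const (cn 0 y)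
  simpa using h1

theorem norm_le_cn (t : ℝ) (y : E n) : ‖y‖ ≤ ‖cn t y‖ := by
  have h1 := ((h n).1 t y).1
  refine le_of_sq_le_sq ?_ (norm_nonneg _)
  rw [h1]
  nlinarith [sq_nonneg t]

theorem abs_le_cn (t : ℝ) (y : E n) : |t| ≤ ‖cn t y‖ := by
  have h1 := ((h n).1 t y).1
  refine le_of_sq_le_sq ?_ (norm_nonneg _)
  rw [h1, sq_abs]
  nlinarith [sq_nonneg ‖y‖]

variable {F : Type*} [NormedAddCommGroup F] [NormedSpace ℝ F] {φ : E (n + 1) → F}

theorem isTest_slice (hφ : IsTest φ) (t : ℝ) : IsTest (fun y : E n => φ (cn t y)) := by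
  obtain ⟨h1, h2, h3⟩ := hφ
  have hcl : IsClosed {y : E n | cn t y ∈ tsupport φ} :=
    (isClosed_tsupport φ).preimage (contDiff_cn h t).continuous
  have hsub : {y : E n | cn t y ∈ tsupport φ} ⊆ ball 0 2 := by
    intro y hy
    have h4 := h3 hy
    rw [mem_ball_zero_iff] at h4 ⊢
    exact (norm_le_cn h t y).trans_lt h4
  have hK : IsCompact {y : E n | cn t y ∈ tsupport φ} :=
    Metric.isCompact_of_isClosed_isBounded hcl (isBounded_ball.subset hsub)
  have hz : ∀ y, y ∉ {y : E n | cn t y ∈ tsupport φ} → φ (cn t y) = 0 := fun y hy =>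
    image_eq_zero_of_notMem_tsupport hy
  refine ⟨h1.comp (contDiff_cn h t), HasCompactSupport.intro hK hz, ?_⟩
  refine (closure_minimal (fun y hy => ?_) hcl).trans hsub
  by_contra hy'
  exact hy (hz y hy')

theorem fderiv_slice (hφ : IsTest φ) (t : ℝ) (y v : E n) :
    fderiv ℝ (fun y => φ (cn t y)) y v = fderiv ℝ φ (cn t y) (cn 0 v) := by
  have h1 : HasFDerivAt φ (fderiv ℝ φ (cn t y)) (cn t y) :=
    (hφ.1.differentiable (by simp) _).hasFDerivAt
  have h2 := (h1.comp y (hasFDerivAt_cn h t y)).fderiv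
  have h3 : fderiv ℝ (fun y => φ (cn t y)) y = (fderiv ℝ φ (cn t y)).comp (c0 n) := h2
  rw [h3]
  rfl

end

section

variable {n : ℕ} (h : T_CNA) {φ : E (n + 1) → ℝ}

include h

theorem int_slice (hφ : IsTest φ) (y : E n) : ∫ t, fderiv ℝ φ (cn t y) (bv 0) = 0 := by
  obtain ⟨h1, h2, h3⟩ := hφ
  have hcn : Continuous (fun t : ℝ => cn t y) :=
    continuous_iff_continuousAt.2 fun t => (hasDerivAt_cn h t y).continuousAt
  have hcl : IsClosed {t : ℝ | cn t y ∈ tsupport φ} := (isClosed_tsupport φ).preimage hcn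
  have hsub : {t : ℝ | cn t y ∈ tsupport φ} ⊆ ball 0 2 := by
    intro t ht
    have h4 := h3 ht
    rw [mem_ball_zero_iff] at h4
    rw [mem_ball_zero_iff, Real.norm_eq_abs]
    exact (abs_le_cn h t y).trans_lt h4
  have hK : IsCompact {t : ℝ | cn t y ∈ tsupport φ} :=
    Metric.isCompact_of_isClosed_isBounded hcl (isBounded_ball.subset hsub)
  have hder : ∀ t, HasDerivAt (fun t : ℝ => φ (cn t y)) (fderiv ℝ φ (cn t y) (bv 0)) t := by
    intro t
    have h5 : HasFDerivAt φ (fderiv ℝ φ (cn t y)) (cn t y) :=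
      (h1.differentiable (by simp) _).hasFDerivAt
    exact h5.comp_hasDerivAt t (hasDerivAt_cn h t y)
  refine integral_eq_zero_of_hasDerivAt_of_integrable hder ?_ ?_
  · refine Continuous.integrable_of_hasCompactSupport
      (((h1.continuous_fderiv (by simp)).comp hcn).clm_apply continuous_const) ?_
    refine HasCompactSupport.intro hK fun t ht => ?_
    have h6 : fderiv ℝ φ (cn t y) = 0 := by
      by_contra h7
      exact ht (support_fderiv_subset ℝ h7)
    rw [h6]
    rfl
  · refine Continuous.integrable_of_hasCompactSupport (h1.continuous.comp hcn) ?_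
    exact HasCompactSupport.intro hK fun t ht => image_eq_zero_of_notMem_tsupport ht

end

theorem isTest_clm {n : ℕ} {F F' : Type*} [NormedAddCommGroup F] [NormedSpace ℝ F]
    [NormedAddCommGroup F'] [NormedSpace ℝ F'] {X : E n → F} (hX : IsTest X) (T : F →L[ℝ] F') :
    IsTest (fun x => T (X x)) ∧ ∀ x v, fderiv ℝ (fun x => T (X x)) x v = T (fderiv ℝ X x v) := by
  obtain ⟨h1, h2, h3⟩ := hX
  have hz : ∀ x, x ∉ tsupport X → T (X x) = 0 := fun x hx => by
    rw [image_eq_zero_of_notMem_tsupport hx, map_zero]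
  refine ⟨⟨T.contDiff.comp h1, HasCompactSupport.intro h2 hz, ?_⟩, fun x v => ?_⟩
  · refine (closure_minimal (fun x hx => ?_) (isClosed_tsupport X)).trans h3
    by_contra hx'
    exact hx (hz x hx')
  · have h4 : HasFDerivAt X (fderiv ℝ X x) x := (h1.differentiable (by simp) _).hasFDerivAt
    have h5 : fderiv ℝ (fun x => T (X x)) x = T.comp (fderiv ℝ X x) :=
      (T.hasFDerivAt.comp x h4).fderiv
    rw [h5]
    rfl

end Pool.Agent.H67.RG.FCNT

namespace Pool.Agent.H67.RG

open MeasureTheory Metric Set Filter Topology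
open Pool.Agent.H87.SN Pool.Agent.H90.RG
open scoped ContDiff RealInnerProductSpace ENNReal

open FCNT in
theorem pf_CNT (h : T_CNA) : T_CNT := by
  intro n
  refine ⟨fun φ hφ => ⟨fun t => ⟨isTest_slice h hφ t, fderiv_slice h hφ t⟩, int_slice h hφ⟩,
    fun X hX => ⟨fun t => ?_, fun y => ?_⟩⟩
  · have h1 := isTest_slice h hX t
    have h2 := isTest_clm h1 tl
    refine ⟨h2.1, fun y v => ?_⟩
    rw [h2.2, fderiv_slice h hX]
  · have h2 := isTest_clm hX (EuclideanSpace.proj (0 : Fin (n + 1)) : E (n + 1) →L[ℝ] ℝ)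
    have h3 := int_slice h h2.1 y
    simp only [h2.2] at h3
    exact h3

end Pool.Agent.H67.RG
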