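import Pool.Agent.H90.RG.Targets

/-! Row F_DML of `reg_modules`: square integrability with a dummy variable. -/

set_option autoImplicit false

namespace Pool.Agent.H67.RG.FDML

open MeasureTheory Metric Set Filter Topology
open Pool.Agent.H87.SN Pool.Agent.H90.RG
open scoped ContDiff RealInnerProductSpace ENNReal

section

variable {n : ℕ} (hA : T_CNA) (hF : T_CNF)

include hA hF

/-- the estimate for measurable functions -/
theorem lint_tl {g : E n → ℝ≥0∞} (hg : Measurable g) :
    ∫⁻ x in ball (0 : E (n + 1)) 2, g (tl x) ≤ 4 * ∫⁻ y in ball (0 : E n) 2, g y := by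
  have hm : Measurable (fun x : E (n + 1) => g (tl x)) := hg.comp tl.continuous.measurable
  rw [← lintegral_indicator measurableSet_ball, ← lintegral_indicator measurableSet_ball,
    (hF n 0).2.2 _ (hm.indicator measurableSet_ball)]
  calc ∫⁻ y : E n, ∫⁻ t : ℝ, (ball (0 : E (n + 1)) 2).indicator (fun x => g (tl x)) (cn t y)
      ≤ ∫⁻ y : E n, ∫⁻ t : ℝ, (ball (0 : E n) 2).indicator g y *
          (Ioo (-2 : ℝ) 2).indicator (fun _ => (1 : ℝ≥0∞)) t := by
        refine lintegral_mono fun y => lintegral_mono fun t => ?_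
        by_cases hx : cn t y ∈ ball (0 : E (n + 1)) 2
        · have h1 := (hA n).1 t y
          have h2 : ‖cn t y‖ < 2 := mem_ball_zero_iff.1 hx
          have h3 : ‖cn t y‖ ^ 2 < 4 := by nlinarith [norm_nonneg (cn t y)]
          have h4 : y ∈ ball (0 : E n) 2 := by
            rw [mem_ball_zero_iff]
            nlinarith [sq_nonneg t, h1.1, norm_nonneg y]
          have h5 : t ∈ Ioo (-2 : ℝ) 2 := by
            rw [mem_Ioo]
            constructor <;> nlinarith [sq_nonneg ‖y‖, h1.1]
          rw [indicator_of_mem hx, indicator_of_mem h4, indicator_of_mem h5, mul_one, h1.2.1]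
        · rw [indicator_of_notMem hx]
          exact zero_le
    _ = ∫⁻ y : E n, 4 * (ball (0 : E n) 2).indicator g y := by
        refine lintegral_congr fun y => ?_
        rw [lintegral_const_mul _ (measurable_const.indicator measurableSet_Ioo),
          lintegral_indicator measurableSet_Ioo, setLIntegral_const, Real.volume_Ioo, mul_comm]
        norm_num
    _ = 4 * ∫⁻ y : E n, (ball (0 : E n) 2).indicator g y :=
        lintegral_const_mul _ (hg.indicator measurableSet_ball)

theorem null_tl {S : Set (E n)} (hS : MeasurableSet S)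
    (h0 : (volume.restrict (ball (0 : E n) 2)) S = 0) :
    (volume.restrict (ball (0 : E (n + 1)) 2)) (tl ⁻¹' S) = 0 := by
  have h1 := lint_tl hA hF (g := S.indicator 1) (measurable_one.indicator hS)
  rw [lintegral_indicator_one hS, h0, mul_zero] at h1
  have h2 : ∫⁻ x in ball (0 : E (n + 1)) 2, S.indicator 1 (tl x) =
      (volume.restrict (ball (0 : E (n + 1)) 2)) (tl ⁻¹' S) := by
    rw [← lintegral_indicator_one (hS.preimage tl.continuous.measurable)]
    rfl
  rw [h2] at h1
  exact nonpos_iff_eq_zero.1 h1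

theorem qmp : Measure.QuasiMeasurePreserving (tl : E (n + 1) → E n)
    (volume.restrict (ball (0 : E (n + 1)) 2)) (volume.restrict (ball (0 : E n) 2)) := by
  refine ⟨tl.continuous.measurable, Measure.AbsolutelyContinuous.mk fun S hS h0 => ?_⟩
  rw [Measure.map_apply tl.continuous.measurable hS]
  exact null_tl hA hF hS h0

theorem lint_tl' {g : E n → ℝ≥0∞} (hg : AEMeasurable g (volume.restrict (ball (0 : E n) 2))) :
    ∫⁻ x in ball (0 : E (n + 1)) 2, g (tl x) ≤ 4 * ∫⁻ y in ball (0 : E n) 2, g y := by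
  have h1 : ∀ᵐ x ∂(volume.restrict (ball (0 : E (n + 1)) 2)), g (tl x) = hg.mk g (tl x) :=
    (qmp hA hF).ae hg.ae_eq_mk
  rw [lintegral_congr_ae h1, lintegral_congr_ae hg.ae_eq_mk]
  exact lint_tl hA hF hg.measurable_mk

theorem memLp_tl {F : Type*} [NormedAddCommGroup F] {u : E n → F}
    (hu : MemLp u 2 (volume.restrict (ball (0 : E n) 2))) :
    MemLp (fun x => u (tl x)) 2 (volume.restrict (ball (0 : E (n + 1)) 2)) := by
  refine ⟨hu.aestronglyMeasurable.comp_quasiMeasurePreserving (qmp hA hF), ?_⟩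
  have h1 := hu.2
  rw [eLpNorm_lt_top_iff_lintegral_rpow_enorm_lt_top (by norm_num) (by norm_num)] at h1 ⊢
  refine (lint_tl' hA hF (g := fun y => ‖u y‖ₑ ^ (2 : ℝ≥0∞).toReal)
    (hu.aestronglyMeasurable.enorm.pow_const _)).trans_lt ?_
  exact ENNReal.mul_lt_top (by norm_num) h1

end

theorem nsq_int {n m : ℕ} {G : E n → E n →L[ℝ] E m} {μ : Measure (E n)} (hG : MemLp G 2 μ) :
    Integrable (fun x => nsq (G x)) μ := by
  unfold nsq
  refine integrable_finsetSum _ fun i _ => ?_
  have h1 : MemLp (fun x => G x (bv i)) 2 μ :=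
    (ContinuousLinearMap.apply ℝ (E m) (bv i)).comp_memLp' hG
  exact h1.integrable_norm_pow (by norm_num)

end Pool.Agent.H67.RG.FDML

namespace Pool.Agent.H67.RG

open MeasureTheory Metric Set Filter Topology
open Pool.Agent.H87.SN Pool.Agent.H90.RG
open scoped ContDiff RealInnerProductSpace ENNReal

open FDML in
theorem pf_DML (hA : T_CNA) (_hM : T_CNM) (hF : T_CNF) : T_DML := by
  intro n m u G
  refine ⟨fun hu => memLp_tl hA hF hu, fun hG => ?_, fun P hP => (qmp hA hF).ae hP⟩
  have h1 : MemLp (fun x => G (tl x)) 2 (volume.restrict (ball (0 : E (n + 1)) 2)) :=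
    memLp_tl hA hF hG
  have h2 : MemLp (tg G) 2 (volume.restrict (ball (0 : E (n + 1)) 2)) :=
    ((ContinuousLinearMap.compL ℝ (E (n + 1)) (E n) (E m)).flip tl).comp_memLp' h1
  have h3 : ∀ x, nsq (tg G x) = nsq (G (tl x)) := by
    intro x
    unfold nsq
    rw [Fin.sum_univ_succ]
    have h4 : tg G x (bv 0) = 0 := by
      show G (tl x) (tl (bv 0)) = 0
      rw [(hA n).2.2.2.1, map_zero]
    have h5 : ∀ i : Fin n, tg G x (bv i.succ) = G (tl x) (bv i) := by
      intro i
      show G (tl x) (tl (bv i.succ)) = _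
      rw [((hA n).2.2.2.2.1 i).1]
    simp only [h4, h5]
    simp
  refine ⟨h2, h3, ?_⟩
  have hnn : ∀ {k : ℕ} (L : E k →L[ℝ] E m), 0 ≤ nsq L := fun L =>
    Finset.sum_nonneg fun i _ => by positivity
  have hi := nsq_int hG
  have hi2 := nsq_int h2
  rw [integral_eq_lintegral_of_nonneg_ae (Eventually.of_forall fun x => hnn _)
      hi2.aestronglyMeasurable,
    integral_eq_lintegral_of_nonneg_ae (Eventually.of_forall fun x => hnn _)
      hi.aestronglyMeasurable]
  have h6 : ∫⁻ x in ball (0 : E (n + 1)) 2, ENNReal.ofReal (nsq (tg G x)) ≤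
      4 * ∫⁻ x in ball (0 : E n) 2, ENNReal.ofReal (nsq (G x)) := by
    simp only [h3]
    exact lint_tl' hA hF (g := fun y => ENNReal.ofReal (nsq (G y)))
      hi.aestronglyMeasurable.aemeasurable.ennreal_ofReal
  have h7 : 4 * ∫⁻ x in ball (0 : E n) 2, ENNReal.ofReal (nsq (G x)) ≠ ⊤ :=
    ENNReal.mul_ne_top (by norm_num) hi.lintegral_lt_top.ne
  have h8 := ENNReal.toReal_mono h7 h6
  rw [ENNReal.toReal_mul] at h8
  simpa using h8

end Pool.Agent.H67.RG
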